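import Pool.Agent.H85.CQ.Idx
import Pool.Agent.H85.CQ.Norm
import Pool.Agent.H85.CQ.TRANS
import Pool.Agent.H85.CQ.MOVDN
import Pool.Agent.H85.CQ.FREEUP
import Pool.Agent.H85.CQ.FREEDN
import Pool.Agent.H85.CQ.AUTDN
import Pool.Agent.H85.CQ.INTMOV
import Pool.Agent.H85.CQ.INTNEF

set_option autoImplicit false

/-!
# Both cone conjectures pass to the quotients by arbitrary finite groups

`X'` is a normal projective variety, `G` a finite group of birational self-maps of `X'` which are
isomorphisms in codimension one, and `X = X' / G` (in codimension one, see `IsQuot`). The theorem says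
that both parts of the cone conjecture pass from `X'` to `X`: for the groups of all automorphisms and
of all pseudo-automorphisms, for the groups `Aut(X, Δ)` and `PsAut(X, Δ)` (the stronger formulation of
the conjecture; `K_X' + Δ'` is the pull back of `K_X + Δ`, so that `(X, Δ)` is a klt Calabi-Yau pair if
`(X', Δ')` is one), and in general for all groups of pseudo-automorphisms of `X` which contain the ones
induced by a given group on `X'`. It also says that the induced ones have finite index in `Aut(X)` and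
`PsAut(X)`, up to elements which act trivially on `N¹(X)`.

The finite group `G` is arbitrary: it need not be cyclic, it may have fixed points and fixed divisors,
and for the movable cone it need not act by automorphisms. The argument: let the rational polyhedral
cone `Π` be a fundamental domain for the action of the group `𝒮'` on the cone of `X'`. Only finitely
many elements of the image of `𝒮'` in `GL(N¹(X'))` fix an interior class in `Π`. If `x` is an interior
`G`-invariant class and `γ x` is in `Π` then the elements `γ g γ⁻¹` fix `γ x`; so there are finitely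
many possibilities for the action of `γ G γ⁻¹`, and, up to elements which act trivially, finitely many
possibilities for the homomorphism `g ↦ γ g γ⁻¹`. Hence finitely many translates `γ_i⁻¹ Π`, and their
translates by the elements of `𝒮'` which commute with `G`, cover the interior `G`-invariant classes.
It remains to show that the effective, the movable and the nef cone of `X` are the cones of the
`G`-invariant classes in the cones of `X'`, that the elements which commute with `G` descend, and that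
one gets all classes, and not only the interior ones.

The condition on the elements which act trivially on `N¹(X')` is `SmallKernel`. It holds if they are
finite in number, or if, up to finite index, they form an abelian group which is divisible by the
order of `G` and has finite torsion, like the points of an abelian variety (`AlmostAb`). For
`Aut(X', Δ')` and `PsAut(X', Δ')` they form an algebraic group, whose identity component is an abelian
variety if `(X', Δ')` is a klt Calabi-Yau pair; so the condition is true for these pairs. (The last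
remarks are not formalised.)

The last two parts do not assume a cone conjecture: `X'` has a free abelian group of automorphisms,
or of pseudo-automorphisms, of positive entropy, of the greatest possible rank `ρ(X') - 1`. If `G`
normalises this group then no condition on the elements which act trivially is needed.

`PicardBasis`, `movCone`, `nefCone`, `effCone`, `IsPullBack`, `IsAut` and `HasFundDomain` are defined
in `Pool.Agent.N110.CC.Defs`; `PseudoAut` in `Pool.Agent.N110.PA.Defs`; `psGroup` and `autGroup`, the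
groups of all pseudo-automorphisms and of all automorphisms, in `Pool.Agent.N110.CC.Rep` and
`Pool.Agent.N110.CC.Res`; `dynDegree` in `Pool.Agent.N110.Defs`; `IsQuot` and `FiniteMor` in
`Pool.Agent.H85.CQ.Defs`; `pairPs`, `pairAut`, `MovDom`, `NefDom`, `SmallKernel`, `LogPull`,
`induced`, `GoodMov` and `GoodNef` in `Pool.Agent.H85.CQ.QDefs`; `QFactorial` in
`Pool.Agent.H85.CQ.Stm2`.
-/

open FF Pool.Agent.W602.GT Pool.Agent.Y172 Pool.Agent.R887 Pool.Agent.N110 Pool.Agent.N110.PA
open Pool.Agent.N110.CC Pool.Agent.H85.CQ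

/-- Let `X` and `X'` be normal projective varieties of dimension `n ≥ 1`, with generic points `y` and
`y'`, and let the vectors `c P` and `c' P` be the classes of the prime divisors in `N¹(X) = ℤ ^ ρ` and
`N¹(X') = ℤ ^ ρ'`. Let `G` be a finite group of automorphisms of the function field `K'` of `X'`, and
let `X = X' / G` in codimension one.

(1) Let `𝒮'` be a group of pseudo-automorphisms of `X'` which contains `G`, and such that the elements
which act trivially on `N¹(X')` satisfy `SmallKernel`. If `𝒮'` has a rational polyhedral fundamental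
domain on `Mov(X') ∩ Eff(X')`, then every group of pseudo-automorphisms of `X` which contains the ones
induced by elements of `𝒮'` has a rational polyhedral fundamental domain on `Mov(X) ∩ Eff(X)`, and the
induced ones have finite index in `PsAut(X)` up to elements which act trivially on `N¹(X)`.

(2) Let `X' → X` be a finite morphism, let `X'` be `ℚ`-factorial, and let `𝒮'` consist of
automorphisms. If `𝒮'` has a rational polyhedral fundamental domain on `Nef(X') ∩ Eff(X')`, then every
group of automorphisms of `X` which contains the induced ones has a rational polyhedral fundamental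
domain on `Nef(X) ∩ Eff(X)`, and the induced ones have finite index in `Aut(X)` up to elements which
act trivially on `N¹(X)`.

(3), (4) Let `K_X' + Δ'` be the pull back of `K_X + Δ`. If `PsAut(X', Δ')` has a rational polyhedral
fundamental domain on `Mov(X') ∩ Eff(X')` then `PsAut(X, Δ)` has one on `Mov(X) ∩ Eff(X)`, and if
`Aut(X', Δ')` has one on `Nef(X') ∩ Eff(X')` then `Aut(X, Δ)` has one on `Nef(X) ∩ Eff(X)`, under the
assumptions on `G` and on the elements which act trivially of (1) and (2).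

(5), (6) Let `ℤ ^ r`, `r ≥ 1`, act on `X'` by elements of `𝒮'`, let every `v ≠ 0` act with positive
entropy, and let `r + 1 = ρ'`. Then the conclusions of (1) and (2) hold without any assumption on
fundamental domains; and if `G` normalises the image of `ℤ ^ r`, then no assumption on the elements
which act trivially on `N¹(X')` is needed. -/
theorem Pool.Agent.Results.MP_ad47bb_ag.FiniteQuotients.result
    {K K' : Type} [Field K] [Algebra ℂ K] [Field K'] [Algebra ℂ K'] {N N' n ρ ρ' : ℕ}
    {y : Fin (N + 1) → K} {y' : Fin (N' + 1) → K'} (hy : NormalModel y) (hy' : NormalModel y')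
    (hn : Algebra.trdeg ℂ K = n) (hn' : Algebra.trdeg ℂ K' = n) (hn0 : 0 < n)
    {c : Place ℂ K → Fin ρ → ℤ} (hc : PicardBasis y c)
    {c' : Place ℂ K' → Fin ρ' → ℤ} (hc' : PicardBasis y' c')
    {π : K →ₐ[ℂ] K'} {G : Subgroup (K' ≃ₐ[ℂ] K')} (hq : IsQuot π y y' G) :
    (∀ 𝒮' : Subgroup (K' ≃ₐ[ℂ] K'), (∀ φ ∈ 𝒮', PseudoAut φ y') → G ≤ 𝒮' →
      SmallKernel y' c' 𝒮' G → MovDom y' c' 𝒮' → GoodMov π G y c 𝒮') ∧
    (FiniteMor π y y' → QFactorial y' →
      ∀ 𝒮' : Subgroup (K' ≃ₐ[ℂ] K'), (∀ φ ∈ 𝒮', IsAut φ y') → G ≤ 𝒮' →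
      SmallKernel y' c' 𝒮' G → NefDom y' n c' 𝒮' → GoodNef π G y n c 𝒮') ∧
    (∀ (Δ' : Place ℂ K' → ℝ) (Δ : Place ℂ K → ℝ), LogPull π y' Δ' Δ → G ≤ pairPs y' Δ' →
      SmallKernel y' c' (pairPs y' Δ') G →
      MovDom y' c' (pairPs y' Δ') → MovDom y c (pairPs y Δ)) ∧
    (FiniteMor π y y' → QFactorial y' →
      ∀ (Δ' : Place ℂ K' → ℝ) (Δ : Place ℂ K → ℝ), LogPull π y' Δ' Δ → G ≤ pairAut y' Δ' →
      SmallKernel y' c' (pairAut y' Δ') G →
      NefDom y' n c' (pairAut y' Δ') → NefDom y n c (pairAut y Δ)) ∧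
    (∀ (r : ℕ) (φ : (Fin r → ℤ) → (K' ≃ₐ[ℂ] K')), 0 < r → ρ' = r + 1 →
      (∀ u v, φ (u + v) = φ u * φ v) → (∀ v, v ≠ 0 → 1 < dynDegree (φ v) y' n 1) →
      ∀ 𝒮' : Subgroup (K' ≃ₐ[ℂ] K'), (∀ φ ∈ 𝒮', PseudoAut φ y') → G ≤ 𝒮' → (∀ v, φ v ∈ 𝒮') →
      (SmallKernel y' c' 𝒮' G ∨ ∀ g ∈ G, ∀ v, ∃ w, g * φ v = φ w * g) → GoodMov π G y c 𝒮') ∧
    (FiniteMor π y y' → ∀ (r : ℕ) (φ : (Fin r → ℤ) → (K' ≃ₐ[ℂ] K')), 0 < r → ρ' = r + 1 →
      (∀ u v, φ (u + v) = φ u * φ v) → (∀ v, v ≠ 0 → 1 < dynDegree (φ v) y' n 1) →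
      ∀ 𝒮' : Subgroup (K' ≃ₐ[ℂ] K'), (∀ φ ∈ 𝒮', IsAut φ y') → G ≤ 𝒮' → (∀ v, φ v ∈ 𝒮') →
      (SmallKernel y' c' 𝒮' G ∨ ∀ g ∈ G, ∀ v, ∃ w, g * φ v = φ w * g) →
      GoodNef π G y n c 𝒮') := by
  have movF := fun (𝒮' : Subgroup (K' ≃ₐ[ℂ] K')) (h1 : ∀ φ ∈ 𝒮', PseudoAut φ y') (h2 : G ≤ 𝒮')
      (h3 : FinConj y' c' 𝒮' G) (h4 : MovDom y' c' 𝒮') =>
    good_mov leafTRANS (leafMOVDN leafTRANS) leafINTMOV hy hy' hn hn' hn0 hc hc' hq h1 h2 h3 h4
  have nefF := fun (hm : FiniteMor π y y') (hi : (interior (nefCone y' n c')).Nonempty)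
      (𝒮' : Subgroup (K' ≃ₐ[ℂ] K')) (h1 : ∀ φ ∈ 𝒮', IsAut φ y') (h2 : G ≤ 𝒮')
      (h3 : FinConj y' c' 𝒮' G) (h4 : NefDom y' n c' 𝒮') =>
    good_nef leafTRANS leafFREEUP freedn autdn hy hy' hn hn' hn0 hc hc' hq hm hi h1 h2 h3 h4
  have mov : ∀ 𝒮' : Subgroup (K' ≃ₐ[ℂ] K'), (∀ φ ∈ 𝒮', PseudoAut φ y') → G ≤ 𝒮' →
      SmallKernel y' c' 𝒮' G → MovDom y' c' 𝒮' → GoodMov π G y c 𝒮' := fun 𝒮' h1 h2 h3 h4 =>
    movF 𝒮' h1 h2 (fin_or hy' hc' h1 h2 hq h3) h4
  have nef : FiniteMor π y y' → (interior (nefCone y' n c')).Nonempty →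
      ∀ 𝒮' : Subgroup (K' ≃ₐ[ℂ] K'), (∀ φ ∈ 𝒮', IsAut φ y') → G ≤ 𝒮' →
      SmallKernel y' c' 𝒮' G → NefDom y' n c' 𝒮' → GoodNef π G y n c 𝒮' :=
    fun hm hi 𝒮' h1 h2 h3 h4 =>
      nefF hm hi 𝒮' h1 h2 (fin_or hy' hc' (fun φ hφ => isAut_ps hy' (h1 φ hφ)) h2 hq h3) h4
  have hfin : Finite G := hq.finite
  refine ⟨mov, fun hm hQ => nef hm (leafINTNEF K' N' n ρ' y' hy' hn' hn0 hQ c' hc'),
    fun Δ' Δ hΔ hG h3 h4 => (mov (pairPs y' Δ') (fun φ hφ => hφ.1) hG h3 h4).dom _ ?_ ?_,
    fun hm hQ Δ' Δ hΔ hG h3 h4 => (nef hm (leafINTNEF K' N' n ρ' y' hy' hn' hn0 hQ c' hc')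
      (pairAut y' Δ') (fun φ hφ => hφ.1) hG h3 h4).dom _ ?_ ?_, ?_, ?_⟩
  · rintro φ ⟨φ', a1, a2, a3⟩
    exact desc_ps hy' hn hn' hq hΔ φ' a1 a2 φ a3
  · exact fun φ hφ => hφ.1
  · rintro φ ⟨φ', a1, a2, a3⟩
    exact desc_aut autdn hy hy' hn hn' hn0 hq hm hΔ (fun g hg => (hG hg).1) φ' a1 a2 φ a3
  · exact fun φ hφ => hφ.1
  · intro r φ hr hρ hφ hent 𝒮' h1 h2 h3 h4
    subst hρ
    rcases h4 with h4 | h4
    · exact mov 𝒮' h1 h2 h4 (cc_mov hy' hn' hn0 hr hc' h1 hφ h3 hent).2
    · have h5 : normGroup hφ h4 ≤ 𝒮' := normGroup_le hφ h4 h2 h3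
      have h6 : ∀ ψ ∈ normGroup hφ h4, PseudoAut ψ y' := fun ψ hψ => h1 ψ (h5 hψ)
      have h7 := movF (normGroup hφ h4) h6 (le_normGroup hφ h4)
        (norm_fin hφ h4 hy' hn' hn0 hr (Nat.succ_pos r) hc' hfin h6 hent)
        (cc_mov hy' hn' hn0 hr hc' h6 hφ (phi_normGroup hφ h4) hent).2
      exact h7.up h5 (induced_ps hy' hn hn' hq h1)
  · intro hm r φ hr hρ hφ hent 𝒮' h1 h2 h3 h4
    subst hρ
    have hi : (interior (nefCone y' n c')).Nonempty := by
      rw [nef_eq hy' hn' hn0 hr hc' h1 hφ h3 hent]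
      obtain ⟨i, hi⟩ := hy'.ne
      obtain ⟨Hy, hHe, hH⟩ := exists_hyp hy' hi
      exact ⟨_, hyp_intN hy' hc' hi hHe hH⟩
    rcases h4 with h4 | h4
    · exact nef hm hi 𝒮' h1 h2 h4 (cc_nef hy' hn' hn0 hr hc' h1 hφ h3 hent).2
    · have h5 : normGroup hφ h4 ≤ 𝒮' := normGroup_le hφ h4 h2 h3
      have h6 : ∀ ψ ∈ normGroup hφ h4, IsAut ψ y' := fun ψ hψ => h1 ψ (h5 hψ)
      have h7 := nefF hm hi (normGroup hφ h4) h6 (le_normGroup hφ h4)
        (norm_fin hφ h4 hy' hn' hn0 hr (Nat.succ_pos r) hc' hfin (fun ψ hψ => isAut_ps hy' (h6 ψ hψ))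
          hent) (cc_nef hy' hn' hn0 hr hc' h6 hφ (phi_normGroup hφ h4) hent).2
      exact h7.up h5 (induced_aut autdn hy hy' hn hn' hn0 hq hm h2 h1)
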