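import Pool.Agent.K6.H19.TR.Al

set_option autoImplicit false

/-!
# The nef cone conjecture for quotients of blow-ups of three-dimensional complex tori

Let `T = ℂ^3 / Λ` be any complex torus of dimension three, let `G` be any finite group of automorphisms
of `T` which fix `0`, and let `X = Bl_0(T) / G`. Let `m` be the number of scalars in `G`, let `P` be the
image of the exceptional divisor, let `D_i` be the images of the divisors in `T` which are fixed
pointwise by some element of `G` other than `1`, and let `e_i` be the order of the (cyclic) group of the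
elements of `G` which fix such a divisor pointwise. The divisor `K_X + Δ`, where
`Δ = (1 - 3 / m) P + ∑ (1 - 1 / e_i) D_i`, is numerically trivial, because its pullback to `Bl_0(T)` is
the zero divisor. So `(X, Δ)` is a klt Calabi-Yau pair if (and only if) `m ≥ 3`, that is, if `G` contains
a scalar other than `1` and `-1`. The theorem says that part (a) of the conjecture holds for all these
pairs: the cone `Nef^e(X)` has a rational polyhedral fundamental domain for the action of `Aut(X)`. It
also says that the nef cone is given by the elliptic curves through `0` and the lines in `P`.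

The proof. (1) The scalars show that `Λ` is a module over `ℤ[ω]` or `ℤ[i]`; as these rings are euclidean,
`Λ` is isomorphic to `ℤ[ω]^3` or `ℤ[i]^3` (`Pool.Agent.K6.H19.TR.Lt`). (2) The statement is transported
along a linear isomorphism (`Pool.Agent.K6.H19.TR.Tr`, `Dm`). (3) For the lattice `ℤ[ω]^3` the theorem is
`Pool.Agent.Results.MP_ad47bb_ag.EquivariantKummer`. (4) The new case is `ℤ[i]^3`, with `m = 4`. Let `H`
be a hermitian form and `b` the coefficient of `-P`. To find sections of multiples of the class `(H, b)`
one writes multiples of `H` as sums of hermitian squares `|l_k|²` of integral linear functions, at least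
`b` of them outside a given proper sublattice. By duality this follows from the inequality
`min H ≤ tr (M H)` for positive semidefinite `M` which are at least `1` outside a proper sublattice. For
`ℤ[i]^3` Hermite's reduction theory, which gives the inequality for `ℤ[ω]^3`, is not strong enough. We
use frames instead (`Pool.Agent.K6.H19.GI.LemA`, `LemB`): a frame consists of vectors `e_1, e_2, e_3` such
that the lattice is generated by them and `(e_1 + e_2 + e_3) / (1 + i)`. For the frame with the smallest
value of `M(e_1) + M(e_2) + M(e_3)` the form `M` is a nonnegative combination of the hermitian squares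
of the fifteen functions `(1 + i) l_j` and `l_j + u l_k`, where `l_j` are the coordinates with respect to
the frame and `u` is a unit (this is Voronoi's reduction with the perfect form `D_6`). Averaging over
the vectors `(a e_1 + b e_2 + c e_3) / (1 + i)`, with units `a, b, c`, outside the sublattice gives the
inequality.

`IsLatt` is defined in `Pool.Agent.K6.H19.TR.Lt`, `HasScalar` in `Pool.Agent.K6.H19.TR.Al`; `Pres`,
`semi`, `NS`, `form`, `coef`, `nefCone`, `IsAutGroup` and `HasDomain` in `Pool.Agent.T6.H34.EK.Defs`;
`LinGrp` in `Pool.Agent.Y167.Stm`.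
-/

namespace Pool.Agent.Results.MP_ad47bb_ag.ThreeDimensionalTori

open Pool.Agent.T6.H34.EK (Pres semi NS form coef nefCone IsAutGroup HasDomain)
open Pool.Agent.K6.H19.TR (IsLatt HasScalar)
open Pool.Agent.Y167.CC (LinGrp)

/-- Let `Λ` be a lattice in `ℂ^3`, let `G` be a finite group of linear automorphisms of `ℂ^3` which
preserves `Λ` and contains a scalar `ζ ≠ 1, -1`, and let `X = Bl_0(ℂ^3 / Λ) / G`. A class in `N^1(X)` is a
pair `(H, b)` where `H` is a hermitian form on `ℂ^3` and `b` is the coefficient of the exceptional divisor
`-Ẽ` of `Bl_0(ℂ^3 / Λ)`. The nef cone of `X` is the cone of all `(H, b)` in `N^1(X)` such that `b ≥ 0` and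
`b` is at most the degree of `H` on the elliptic curves through `0`: if `v ≠ 0` and `z v` are in `Λ` and
`z` is not real, then `b ≤ |Im z| H(v, v) = |Im H(z v, v)|`. There is a finite set `S` of integral classes
such that the cone `Π` spanned by `S` consists of nef effective classes and is a fundamental domain for
the action of `𝒢` on the cone `Nef^e(X)` of nef effective classes. -/
theorem result (Λ : AddSubgroup (Fin 3 → ℂ)) (hΛ : IsLatt Λ)
    (G : Subgroup ((Fin 3 → ℂ) ≃ₗ[ℂ] (Fin 3 → ℂ))) (hfin : Finite G) (hG : Pres Λ G)
    (ζ : ℂ) (hζ : HasScalar G ζ) (hζ1 : ζ ≠ 1) (hζ2 : ζ ≠ -1) :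
    (∀ x : NS (semi Λ G hG), x ∈ nefCone (semi Λ G hG) ↔ 0 ≤ coef x ∧
      ∀ v ∈ Λ, ∀ z : ℂ, z • v ∈ Λ → v ≠ 0 → z.im ≠ 0 → coef x ≤ |z.im| * (form x v v).re) ∧
    ∀ 𝒢 : LinGrp (NS (semi Λ G hG)), IsAutGroup 𝒢 → HasDomain 𝒢 :=
  Pool.Agent.K6.H19.TR.concl_three hΛ hG hζ fun h => by
    rcases sq_eq_one_iff.1 h with h1 | h1
    · exact hζ1 h1
    · exact hζ2 h1

end Pool.Agent.Results.MP_ad47bb_ag.ThreeDimensionalTori
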